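import Pool.Agent.Helper76.SGC.Goals
import Pool.Agent.Helper29.BL.PS

/-!
Packet SGC1-BRN (MP_a41896_nt): norm of the bracket.
-/

set_option autoImplicit false

open MvPolynomial

namespace Pool.Agent.Helper87.SGC1

open WeierstrassCurve Height
open Pool.Agent.Helper29.BL Pool.Agent.Helper92.Ru Pool.Agent.Helper42.SG
open Pool.Agent.Helper77.SGC (Arr sh N0 Forb HOUS MON)
open Pool.Agent.Helper76.SGC

theorem brn (h1 : NFB) : BRN := by
  intro K _ W B D n e G hG hB hn c v A _ _ N hN X a s ha hX hs lam μ i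
  obtain ⟨hN0, _, hpow, hprod, hsum⟩ := h1 K v A N hN
  -- `s` is nonnegative
  have hne : Nonempty (Idx n n n e) := by
    have : Nonempty (Fin n) := ⟨⟨0, hn⟩⟩
    refine ⟨(fun h => (⟨0, by positivity⟩, ⟨0, by omega⟩), fun _ => Classical.choice this)⟩
  have hs0 : 0 ≤ s := by
    obtain ⟨α⟩ := hne
    exact (v.nonneg _).trans (hs α)
  -- the bound for one variable
  set T : Fin (2 * n) → ℝ := fun h => (B (h.val % 2) v) ^ (4 ^ e (h.val / 2) * n) *
    a (2 * n + h.val % 2) ^ (2 * n - 2 * (μ h).val) with hT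
  have ha0 : ∀ h : Fin (2 * n), 1 ≤ a (2 * n + h.val % 2) := fun h => ha _ (by omega)
  have hBp : ∀ h : Fin (2 * n), 0 ≤ (B (h.val % 2) v) ^ (4 ^ e (h.val / 2) * n) :=
    fun h => pow_nonneg (zero_le_one.trans (hB _ v)) _
  have hap : ∀ (h : Fin (2 * n)) (k : ℕ), 0 ≤ a (2 * n + h.val % 2) ^ k :=
    fun h k => pow_nonneg (zero_le_one.trans (ha0 h)) _
  have hT0 : ∀ h, 0 ≤ T h := fun h => mul_nonneg (hBp h) (hap h _)
  have hterm : ∀ (α : Idx n n n e) (h : Fin (2 * n)) (g : ℕ),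
      N (algebraMap K A (sh (G h.val) (lam h.val) (μ h) (i h) g (α.1 h).1.val (α.1 h).2.val) *
        X (2 * n + h.val % 2) ^ g) (T h) := by
    intro α h g
    by_cases hz : sh (G h.val) (lam h.val) (μ h) (i h) g (α.1 h).1.val (α.1 h).2.val = 0
    · rw [hz, map_zero, zero_mul]
      exact hN.mono _ _ _ hN0 (hT0 h)
    · have hArr := hG h.val h.isLt
      have hm : (α.1 h).2.val ≤ n := Nat.lt_succ_iff.1 (α.1 h).2.isLt
      have hsh : sh (G h.val) (lam h.val) (μ h) (i h) g (α.1 h).1.val (α.1 h).2.val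
          = G h.val (lam h.val) (α.1 h).2.val (μ h) (i h - (α.1 h).1.val) g := by
        unfold sh at hz ⊢
        by_cases hi : (α.1 h).1.val ≤ i h
        · rw [if_pos hi]
        · rw [if_neg hi] at hz
          exact absurd rfl hz
      rw [hsh] at hz ⊢
      have hdeg := (hArr.deg _ _ hm _ _ _ hz).2
      have hbd := hArr.bd (lam h.val) _ hm v (μ h) (i h - (α.1 h).1.val) g
      refine hN.mono _ _ _ (hN.mul _ _ _ _ (hN.const _) (hpow _ _ (hX (2 * n + h.val % 2)
        (by omega)) g)) ?_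
      refine mul_le_mul hbd ?_ (hap h _) (hBp h)
      exact pow_le_pow_right₀ (ha0 h) (by omega)
  have hS : ∀ (α : Idx n n n e) (h : Fin (2 * n)),
      N (∑ g ∈ Finset.range (2 * n + 1),
        algebraMap K A (sh (G h.val) (lam h.val) (μ h) (i h) g (α.1 h).1.val (α.1 h).2.val) *
          X (2 * n + h.val % 2) ^ g) (cst v (2 * n + 1) * T h) := by
    intro α h
    have h2 := hsum ℕ (Finset.range (2 * n + 1)) (fun g =>
      algebraMap K A (sh (G h.val) (lam h.val) (μ h) (i h) g (α.1 h).1.val (α.1 h).2.val) *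
          X (2 * n + h.val % 2) ^ g) (T h) (hT0 h) fun g _ => hterm α h g
    rw [Finset.card_range] at h2
    push_cast at h2
    exact h2
  have hcst0 : 0 ≤ cst v (2 * (n : ℝ) + 1) := by
    refine (cst_pos v ?_).le
    have : (0 : ℝ) ≤ n := Nat.cast_nonneg _
    linarith
  have hP : ∀ α : Idx n n n e, N (∏ t : Fin 2, X (2 * n + t.val) ^ (α.2 t).val)
      ((a (2 * n) * a (2 * n + 1)) ^ n) := by
    intro α
    have h2 := hprod (Fin 2) Finset.univ (fun t => X (2 * n + t.val) ^ (α.2 t).val)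
      (fun t => a (2 * n + t.val) ^ (α.2 t).val) fun t _ =>
        hpow _ _ (hX (2 * n + t.val) (by omega)) _
    refine hN.mono _ _ _ h2 ?_
    rw [Fin.prod_univ_two, mul_pow]
    have e0 : 1 ≤ a (2 * n) := ha _ (by omega)
    have e1 : 1 ≤ a (2 * n + 1) := ha _ (by omega)
    refine mul_le_mul ?_ ?_ (pow_nonneg (by
      show 0 ≤ a (2 * n + 1)
      linarith) _) (pow_nonneg (by linarith) _)
    · exact pow_le_pow_right₀ e0 (α.2 0).isLt.le
    · exact pow_le_pow_right₀ e1 (α.2 1).isLt.le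
  set P : ℝ := (a (2 * n) * a (2 * n + 1)) ^ n with hPdef
  have hP0 : 0 ≤ P := by
    have e0 : 1 ≤ a (2 * n) := ha _ (by omega)
    have e1 : 1 ≤ a (2 * n + 1) := ha _ (by omega)
    exact pow_nonneg (mul_nonneg (by linarith) (by linarith)) _
  have hQ0 : 0 ≤ ∏ h : Fin (2 * n), (cst v (2 * n + 1) * T h) :=
    Finset.prod_nonneg fun h _ => mul_nonneg hcst0 (hT0 h)
  have hall : ∀ α : Idx n n n e, N (algebraMap K A (c α) *
      (∏ h : Fin (2 * n), ∑ g ∈ Finset.range (2 * n + 1),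
        algebraMap K A (sh (G h.val) (lam h.val) (μ h) (i h) g (α.1 h).1.val (α.1 h).2.val) *
          X (2 * n + h.val % 2) ^ g) *
      ∏ t : Fin 2, X (2 * n + t.val) ^ (α.2 t).val)
      (s * (∏ h : Fin (2 * n), (cst v (2 * n + 1) * T h)) * P) := by
    intro α
    refine hN.mul _ _ _ _ (hN.mul _ _ _ _ (hN.mono _ _ _ (hN.const _) (hs α)) ?_) (hP α)
    exact hprod (Fin (2 * n)) Finset.univ _ _ fun h _ => hS α h
  have hfin := hsum (Idx n n n e) Finset.univ _ _
    (mul_nonneg (mul_nonneg hs0 hQ0) hP0) fun α _ => hall α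
  have hval : cst v ((Finset.univ : Finset (Idx n n n e)).card : ℝ) *
      (s * (∏ h : Fin (2 * n), (cst v (2 * n + 1) * T h)) * P) =
      (cst v ((Fintype.card (Idx n n n e) : ℝ) * (2 * n + 1) ^ (2 * n)) * s *
          (∏ h : Fin (2 * n), (B (h.val % 2) v) ^ (4 ^ e (h.val / 2) * n)) *
          ((∏ h : Fin (2 * n), a (2 * n + h.val % 2) ^ (2 * n - 2 * (μ h).val)) *
            (a (2 * n) * a (2 * n + 1)) ^ n)) := by
    rw [Finset.card_univ, cst_mul, cst_pow, Finset.prod_mul_distrib, Finset.prod_const,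
      Finset.card_univ, Fintype.card_fin, hT, Finset.prod_mul_distrib, hPdef]
    ring
  rw [hval] at hfin
  exact hfin

end Pool.Agent.Helper87.SGC1
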